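import Pool.Agent.FHQ.StmtsZ

/-!
# Squad FHQ, row ZGF: `1 + mx` is a subgroup if `mx` comes from an angular component
-/

set_option linter.unusedSectionVars false

noncomputable section

namespace Pool.Agent.FHQ.H27

open Pool.Agent.FHQ

variable {p : ℕ} [Fact p.Prime] {K : Type} [Field K]

theorem ac_one (A : AcF0 p K) : A.ac 1 = 1 := by
  have h1 := A.ac_mul 1 1
  rw [one_mul] at h1
  have h2 : A.ac 1 ≠ 0 := fun h => one_ne_zero ((A.ac_zero 1).1 h)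
  have h3 : A.ac 1 * 1 = A.ac 1 * A.ac 1 := by rw [mul_one]; exact h1
  exact (mul_left_cancel₀ h2 h3).symm

theorem v_one (A : AcF0 p K) : A.v 1 = 0 := by
  have h1 := A.v_mul 1 1 one_ne_zero one_ne_zero
  rw [one_mul] at h1
  omega

/-- the units with angular component `1` and valuation `0` -/
def sg (A : AcF0 p K) : Subgroup Kˣ where
  carrier := {u | A.ac u = 1 ∧ A.v u = 0}
  mul_mem' := by
    rintro x y ⟨h1, h2⟩ ⟨h3, h4⟩
    refine ⟨?_, ?_⟩
    · rw [Units.val_mul, A.ac_mul, h1, h3, one_mul]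
    · rw [Units.val_mul, A.v_mul _ _ x.ne_zero y.ne_zero, h2, h4, add_zero]
  one_mem' := ⟨ac_one A, v_one A⟩
  inv_mem' := by
    rintro x ⟨h1, h2⟩
    have h3 : (x : K) * ((x⁻¹ : Kˣ) : K) = 1 := Units.mul_inv x
    refine ⟨?_, ?_⟩
    · have h4 := A.ac_mul (x : K) ((x⁻¹ : Kˣ) : K)
      rw [h3, ac_one, h1, one_mul] at h4
      exact h4.symm
    · have h4 := A.v_mul (x : K) ((x⁻¹ : Kˣ) : K) x.ne_zero (x⁻¹).ne_zero
      rw [h3, v_one, h2, zero_add] at h4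
      exact h4.symm

theorem zgf : ZgfStmt := by
  intro p _ K _ mx hA u v
  obtain ⟨A, hA⟩ := hA
  have h1 : ∀ w : Kˣ, (w : K) - 1 ∈ mx ↔ w ∈ sg A.toAcF0 := by
    intro w
    have h2 := hA (w : K) 1
    unfold Em AcF0.E at h2
    rw [div_one, ac_one, v_one] at h2
    constructor
    · intro h
      have h3 := h2.2 ⟨w.ne_zero, one_ne_zero, h⟩
      exact ⟨h3.2.2.1, h3.2.2.2⟩
    · rintro ⟨h3, h4⟩
      exact (h2.1 ⟨w.ne_zero, one_ne_zero, h3, h4⟩).2.2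
  have h2 : Subgroup.closure {w : Kˣ | (w : K) - 1 ∈ mx} = sg A.toAcF0 := by
    have h3 : {w : Kˣ | (w : K) - 1 ∈ mx} = (sg A.toAcF0 : Set Kˣ) := Set.ext h1
    rw [h3, Subgroup.closure_eq]
  unfold rv
  rw [QuotientGroup.eq, h2, ← Subgroup.inv_mem_iff, ← h1]
  have h3 : (((u⁻¹ * v)⁻¹ : Kˣ) : K) = (u : K) / (v : K) := by
    rw [mul_inv_rev, inv_inv, mul_comm, Units.val_mul, Units.val_inv_eq_inv_val, div_eq_mul_inv]
  rw [h3]

end Pool.Agent.FHQ.H27
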